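import Pool.Agent.Y472.G.Defs
import Pool.Agent.Y304.CB.PotY

/-!
# The potential of the ring near `χ₀` (task CB3-G-POTZ)
-/

set_option autoImplicit false

namespace Pool.Agent.Y240.CG

open Finset Filter Topology Metric
open Pool.Agent.W711.HT
open Pool.Agent.Y472
open Pool.Agent.Y837.CB
open Pool.Agent.Y304.CB
open scoped Real

section loc

variable {ρ c C : ℝ} {s q1 q3 : ℂ → ℂ → ℂ → ℂ}

/-- the ring has a potential, even in the first `n` variables -/
theorem potEp (h : Loc ρ c C s q1 q3) {R p₀ : ℝ} (R0 : 0 < R) (R1 : R ≤ ρ / 4) (hbet : 0 < p₀)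
    (a1 : DifferentiableOn ℂ (fun p : ℂ × ℂ × ℂ => q1 p.1 p.2.1 p.2.2)
      (Rc R R ×ˢ Rc R R ×ˢ Rc R R))
    (a3 : DifferentiableOn ℂ (fun p : ℂ × ℂ × ℂ => q3 p.1 p.2.1 p.2.2)
      (Rc R R ×ˢ Rc R R ×ˢ Rc R R))
    (low : ∀ a ∈ Rc R R, ∀ b ∈ Rc R R, ∀ χ ∈ Rc R R, p₀ ≤ (s a b χ).re)
    {n : ℕ} (hn : 2 ≤ n) :
    PotE (n + 1) n R c (n * C + n * C / (ρ / 4)) p₀ (Sr s n) (Dr s n) := by
  have hC := h.hC
  have hρ := h.hρ.1
  have hρ1 := h.hρ.2
  have hsub : ∀ {z : ℂ}, z ∈ Rc R R → z ∈ Rc ρ ρ := fun hz => Rc_mono (by linarith) hz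
  have hsubB : ∀ {ψ : ℕ → ℂ}, ψ ∈ Bx (n + 1) R → ψ ∈ Bx (n + 1) ρ :=
    fun hψ i hi => hsub (hψ i hi)
  have hn0 : (0:ℝ) < n := by exact_mod_cast (by omega : 0 < n)
  have hex : ∀ (i : ℕ), DifferentiableOn ℂ (fun x : Fin (n + 1) → ℂ => ex (n + 1) x i)
      (bx (n + 1) R) := by
    intro i
    unfold ex
    by_cases hi : i < n + 1
    · simp only [hi, dite_true]
      fun_prop
    · simp only [hi, dite_false]
      fun_prop
  have mex : ∀ {i : ℕ}, i < n + 1 → ∀ x ∈ bx (n + 1) R, ex (n + 1) x i ∈ Rc R R := by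
    intro i hi x hx
    simp only [ex, hi, dite_true]
    exact hx ⟨i, hi⟩
  have mexB : ∀ x ∈ bx (n + 1) R, ex (n + 1) x ∈ Bx (n + 1) R := fun x hx i hi => mex hi x hx
  -- composition with three coordinates
  have hcomp : ∀ {q : ℂ → ℂ → ℂ → ℂ}, DifferentiableOn ℂ (fun p : ℂ × ℂ × ℂ => q p.1 p.2.1 p.2.2)
      (Rc R R ×ˢ Rc R R ×ˢ Rc R R) → ∀ {a b d : ℕ}, a < n + 1 → b < n + 1 → d < n + 1 →
      DifferentiableOn ℂ (fun x : Fin (n + 1) → ℂ => q (ex (n + 1) x a) (ex (n + 1) x b)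
        (ex (n + 1) x d)) (bx (n + 1) R) := by
    intro q hq a b d ha hb hd
    exact hq.comp (f := fun x : Fin (n + 1) → ℂ => (ex (n + 1) x a, ex (n + 1) x b,
      ex (n + 1) x d)) ((hex a).prodMk ((hex b).prodMk (hex d)))
      (fun x hx => ⟨mex ha x hx, mex hb x hx, mex hd x hx⟩)
  have san' : DifferentiableOn ℂ (fun p : ℂ × ℂ × ℂ => s p.1 p.2.1 p.2.2)
      (Rc R R ×ˢ Rc R R ×ˢ Rc R R) :=
    h.san.mono fun p hp => ⟨hsub hp.1, hsub hp.2.1, hsub hp.2.2⟩
  refine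
    { he := by omega
      hR := ⟨R0, by linarith⟩
      hc := h.hc
      hB := by positivity
      hp := hbet
      dep := ?_
      an := ?_
      dan := ?_
      der := ?_
      bd := ?_
      ev := ?_
      conc := ?_
      pos := ?_ }
  · -- dep
    intro ψ ψ' he
    refine ⟨Sr_congr s he, fun j => ?_⟩
    unfold Dr
    by_cases hj : j < n + 1
    · rw [he j hj]
      congr 1
      funext w
      apply Sr_congr
      intro i hi
      by_cases e : i = j
      · subst e; rw [Function.update_self, Function.update_self]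
      · rw [Function.update_of_ne e, Function.update_of_ne e, he i hi]
    · have e1 : ∀ φ : ℕ → ℂ, (fun w => Sr s n (Function.update φ j w)) = fun _ => Sr s n φ := by
        intro φ
        funext w
        apply Sr_congr
        intro i hi
        rw [Function.update_of_ne (by omega)]
      rw [e1, e1]
      simp
  · -- an
    unfold Sr
    apply DifferentiableOn.fun_sum
    intro i hi
    have hi' := mem_range.1 hi
    have h1 : (i + 1) % n < n := Nat.mod_lt _ (by omega)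
    exact hcomp san' (by omega) (by omega) (by omega)
  · -- dan
    intro j hj
    have e : ∀ x ∈ bx (n + 1) R, Dr s n j (ex (n + 1) x) =
        ∑ i ∈ range n, dq q1 q3 n j i (ex (n + 1) x) := fun x hx =>
      Dr_eqL h hn (by omega) (hsubB (mexB x hx))
    refine DifferentiableOn.congr ?_ e
    apply DifferentiableOn.fun_sum
    intro i hi
    have hi' := mem_range.1 hi
    have h1 : (i + 1) % n < n := Nat.mod_lt _ (by omega)
    by_cases e1 : j = n
    · refine (hcomp a3 (a := i) (b := (i + 1) % n) (d := n) (by omega) (by omega)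
        (by omega)).congr fun x _ => ?_
      rw [dq, if_pos e1]
    · by_cases e2 : j = i
      · refine (hcomp a1 (a := i) (b := (i + 1) % n) (d := n) (by omega) (by omega)
          (by omega)).congr fun x _ => ?_
        rw [dq, if_neg e1, if_pos e2]
      · by_cases e3 : j = (i + 1) % n
        · refine (hcomp a1 (a := (i + 1) % n) (b := i) (d := n) (by omega) (by omega)
            (by omega)).congr fun x _ => ?_
          rw [dq, if_neg e1, if_neg e2, if_pos e3]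
        · refine (differentiableOn_const (0 : ℂ)).congr fun x _ => ?_
          rw [dq, if_neg e1, if_neg e2, if_neg e3]
  · -- der
    intro ψ hψ j hj
    have := Sr_derL h hn (by omega : j ≤ n) (hsubB hψ) (hsub (hψ j hj))
    rw [Function.update_eq_self] at this
    rw [Dr_eqL h hn (by omega) (hsubB hψ)]
    exact this
  · -- bd
    intro ψ hψ
    have b1 := Sr_bdL h (hsubB hψ)
    have b2 : 0 ≤ (n:ℝ) * C / (ρ / 4) := by positivity
    refine ⟨by linarith, fun j hj => ?_⟩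
    have hball : ∀ w ∈ closedBall (ψ j) (ρ / 4), w ∈ Rc ρ ρ := by
      intro w hw
      have hw' : ‖w - ψ j‖ ≤ ρ / 4 := by simpa [dist_eq_norm] using hw
      exact Rc_mono (by linarith) (Rc_add (hψ j hj) hw')
    have hd : ∀ w ∈ closedBall (ψ j) (ρ / 4),
        DifferentiableAt ℂ (fun w => Sr s n (Function.update ψ j w)) w := fun w hw =>
      (Sr_derL h hn (by omega : j ≤ n) (hsubB hψ) (hball w hw)).differentiableAt
    have hdc : DiffContOnCl ℂ (fun w => Sr s n (Function.update ψ j w)) (ball (ψ j) (ρ / 4)) := by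
      apply DifferentiableOn.diffContOnCl
      rw [closure_ball _ (by positivity)]
      intro w hw
      exact (hd w hw).differentiableWithinAt
    have key := Complex.norm_deriv_le_of_forall_mem_sphere_norm_le (C := n * C)
      (by positivity : (0:ℝ) < ρ / 4) hdc (fun w hw => by
        apply Sr_bdL h
        exact update_mem (hsubB hψ) (hball w (sphere_subset_closedBall hw)))
    have b3 : 0 ≤ (n:ℝ) * C := by positivity
    unfold Dr
    linarith
  · -- ev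
    intro ψ hψ j hj
    unfold Sr
    refine sum_congr rfl fun i hi => ?_
    have hi' := mem_range.1 hi
    have h1 : (i + 1) % n < n := Nat.mod_lt _ (by omega)
    have hu : ∀ k, Function.update ψ j (-ψ j) k = ψ k ∨ Function.update ψ j (-ψ j) k = -ψ k := by
      intro k
      by_cases e : k = j
      · subst e; right; rw [Function.update_self]
      · left; rw [Function.update_of_ne e]
    have e3 : Function.update ψ j (-ψ j) n = ψ n := Function.update_of_ne (by omega) _ _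
    rw [e3]
    exact ev3L h (hsub (hψ _ (by omega))) (hsub (hψ _ (by omega))) (hsub (hψ _ (by omega)))
      (hu _) (hu _)
  · -- conc
    intro ψ hψ j hj
    exact sd_concL h hn (by omega) (hsubB hψ)
  · -- pos
    intro ψ hψ
    have term : ∀ i ∈ range n, p₀ ≤ (s (ψ i) (ψ ((i + 1) % n)) (ψ n)).re := by
      intro i hi
      have hi' := mem_range.1 hi
      have h1 : (i + 1) % n < n := Nat.mod_lt _ (by omega)
      exact low _ (hψ i (by omega)) _ (hψ ((i + 1) % n) (by omega)) _ (hψ n (by omega))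
    unfold Sr
    rw [Complex.re_sum]
    have := sum_le_sum term
    rw [sum_const, card_range, nsmul_eq_mul] at this
    have hn1 : (1:ℝ) ≤ n := by exact_mod_cast (by omega : 1 ≤ n)
    nlinarith

end loc

/-! ### The logarithm -/

/-- if `log (A / B)` is differentiable with nonzero derivative, `A` and `B` continuous and not both
zero, then `B ≠ 0` and the quotient is not in the cut -/
lemma good_of_deriv {A B : ℂ → ℂ} {x₀ : ℂ} {g' : ℂ} (hA : ContinuousAt A x₀)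
    (hB : ContinuousAt B x₀) (hAB : ¬ (A x₀ = 0 ∧ B x₀ = 0))
    (hg : HasDerivAt (fun x => Complex.log (A x / B x)) g' x₀) (hg' : g' ≠ 0) :
    B x₀ ≠ 0 ∧ A x₀ / B x₀ ∈ Complex.slitPlane := by
  -- the logarithm is not eventually zero
  have hne : ∃ᶠ x in 𝓝 x₀, A x / B x ≠ 0 := by
    intro h
    apply hg'
    have h1 : (fun x => Complex.log (A x / B x)) =ᶠ[𝓝 x₀] fun _ => (0 : ℂ) := by
      filter_upwards [h] with x hx
      rw [not_not] at hx
      rw [hx, Complex.log_zero]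
    have h2 := (hg.congr_of_eventuallyEq h1.symm)
    exact h2.unique (hasDerivAt_const _ _)
  have hcg : ContinuousAt (fun x => Complex.exp (Complex.log (A x / B x))) x₀ :=
    Complex.continuous_exp.continuousAt.comp hg.continuousAt
  have hcB : ContinuousAt (fun x => B x * Complex.exp (Complex.log (A x / B x))) x₀ := hB.mul hcg
  have heq : A x₀ = B x₀ * Complex.exp (Complex.log (A x₀ / B x₀)) := by
    have hcd : ContinuousAt (fun x => A x - B x * Complex.exp (Complex.log (A x / B x))) x₀ :=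
      hA.sub hcB
    by_contra hne0
    have h1 : ∀ᶠ x in 𝓝 x₀, A x - B x * Complex.exp (Complex.log (A x / B x)) ≠ 0 :=
      hcd.eventually_ne (sub_ne_zero.2 hne0)
    obtain ⟨x, hx, hx'⟩ := (hne.and_eventually h1).exists
    apply hx'
    have hBx : B x ≠ 0 := fun h => hx (by rw [h, div_zero])
    rw [Complex.exp_log hx, mul_div_cancel₀ _ hBx, sub_self]
  have hB0 : B x₀ ≠ 0 := by
    intro h
    rw [h, zero_mul] at heq
    exact hAB ⟨heq, h⟩
  have hA0 : A x₀ ≠ 0 := by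
    intro h
    rw [h] at heq
    exact mul_ne_zero hB0 (Complex.exp_ne_zero _) heq.symm
  refine ⟨hB0, ?_⟩
  by_contra hcut
  -- on the cut: the imaginary part of the logarithm is maximal
  have him : (Complex.log (A x₀ / B x₀)).im = π := by
    rw [Complex.log_im]
    rw [Complex.mem_slitPlane_iff_arg, not_and_or, not_not] at hcut
    rcases hcut with h | h
    · exact h
    · exact absurd (div_ne_zero hA0 hB0) h
  set v : ℂ := (starRingEnd ℂ) g' * Complex.I with hv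
  have hline : HasDerivAt (fun t : ℝ => x₀ + (t : ℂ) * v) v 0 := by
    have h1 : HasDerivAt (fun t : ℝ => ((t : ℝ) : ℂ)) 1 0 := Complex.ofRealCLM.hasDerivAt
    have h2 := (h1.mul_const v).const_add x₀
    simpa using h2
  have hgl : HasDerivAt (fun t : ℝ => Complex.log (A (x₀ + t * v) / B (x₀ + t * v))) (g' * v) 0 := by
    have h1 : HasDerivAt (fun x => Complex.log (A x / B x)) g' (x₀ + ((0 : ℝ) : ℂ) * v) := by
      simpa using hg
    exact h1.comp (0 : ℝ) hline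
  have him' : HasDerivAt (fun t : ℝ => (Complex.log (A (x₀ + t * v) / B (x₀ + t * v))).im)
      (g' * v).im 0 := by
    exact Complex.imCLM.hasFDerivAt.comp_hasDerivAt (0 : ℝ) hgl
  have hmax : IsLocalMax
      (fun t : ℝ => (Complex.log (A (x₀ + t * v) / B (x₀ + t * v))).im) 0 := by
    apply Filter.Eventually.of_forall
    intro t
    simp only [Complex.ofReal_zero, zero_mul, add_zero]
    rw [him]
    exact Complex.log_im_le_pi _
  have h0 := hmax.hasDerivAt_eq_zero him'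
  have h1 : g' * v = (Complex.normSq g' : ℂ) * Complex.I := by
    rw [hv, ← mul_assoc, Complex.mul_conj]
  rw [h1] at h0
  have h2 : Complex.normSq g' = 0 := by simpa using h0
  exact hg' (Complex.normSq_eq_zero.1 h2)

/-! ### The kernel -/

section ker

variable {χ₀ : ℂ} {ρ₀ c C : ℝ} {s dl : ℂ → ℂ → ℂ → ℂ}

/-- derivative in the first variable -/
noncomputable def Q1 (χ₀ : ℂ) (dl : ℂ → ℂ → ℂ → ℂ) (a b χ : ℂ) : ℂ :=
  -(1 / (2 * π)) * Lg (2 * π * dl a b (χ + χ₀)) a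

/-- derivative in the last variable -/
noncomputable def Q3 (χ₀ : ℂ) (dl : ℂ → ℂ → ℂ → ℂ) (a b χ : ℂ) : ℂ :=
  -(1 / (2 * π)) * Lg (π - 2 * π * dl a b (χ + χ₀)) (χ + χ₀)

lemma shift_mem {χ : ℂ} (h : χ ∈ Rc ρ₀ ρ₀) : χ + χ₀ ∈ Rz χ₀ ρ₀ := by
  show χ + χ₀ - χ₀ ∈ Rc ρ₀ ρ₀
  rwa [add_sub_cancel_right]

lemma shift_diff {q : ℂ → ℂ → ℂ → ℂ}
    (hq : DifferentiableOn ℂ (fun p : ℂ × ℂ × ℂ => q p.1 p.2.1 p.2.2)
      (Rc ρ₀ ρ₀ ×ˢ Rc ρ₀ ρ₀ ×ˢ Rz χ₀ ρ₀)) :
    DifferentiableOn ℂ (fun p : ℂ × ℂ × ℂ => q p.1 p.2.1 (p.2.2 + χ₀))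
      (Rc ρ₀ ρ₀ ×ˢ Rc ρ₀ ρ₀ ×ˢ Rc ρ₀ ρ₀) := by
  have hm : DifferentiableOn ℂ (fun p : ℂ × ℂ × ℂ => (p.1, p.2.1, p.2.2 + χ₀))
      (Rc ρ₀ ρ₀ ×ˢ Rc ρ₀ ρ₀ ×ˢ Rc ρ₀ ρ₀) := by fun_prop
  exact hq.comp hm fun p hp => ⟨hp.1, hp.2.1, shift_mem hp.2.2⟩

lemma toLoc (h : SDZ χ₀ ρ₀ c C s dl) : Loc ρ₀ c C (shz χ₀ s) (Q1 χ₀ dl) (Q3 χ₀ dl) where
  hρ := h.hρ
  hc := h.hc
  hC := h.hC
  san := shift_diff h.san
  sbd := fun a ha b hb χ hχ => h.sbd a ha b hb _ (shift_mem hχ)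
  sym := fun a ha b hb χ hχ => h.sym a ha b hb _ (shift_mem hχ)
  ev := fun a ha b hb χ hχ => h.ev a ha b hb _ (shift_mem hχ)
  conc := by
    intro a ha b hb χ hχ
    have h1 := h.conc a ha b hb _ (shift_mem hχ)
    refine ⟨h1.1, ?_⟩
    have e : (deriv fun z => shz χ₀ s a b z) =
        fun z => deriv (fun z => s a b z) (z + χ₀) := by
      funext z
      exact deriv_comp_add_const (f := fun z => s a b z) _ _
    rw [e, deriv_comp_add_const (f := deriv fun z => s a b z)]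
    exact h1.2
  d1 := fun a ha b hb χ hχ => h.sder a ha b hb _ (shift_mem hχ)
  d3 := fun a ha b hb χ hχ => (h.sderc a ha b hb _ (shift_mem hχ)).comp_add_const _ _

lemma zero_mem_Rz (hρ : 0 < ρ₀) : χ₀ ∈ Rz χ₀ ρ₀ := by
  show χ₀ - χ₀ ∈ Rc ρ₀ ρ₀
  rw [sub_self]
  exact zero_mem_Rc hρ

lemma isOpen_Rz : IsOpen (Rz χ₀ ρ₀) :=
  (isOpen_Rc ρ₀ ρ₀).preimage (continuous_id.sub continuous_const)

lemma dl_ne (h : SDZ χ₀ ρ₀ c C s dl) {a b χ : ℂ} (ha : a ∈ Rc ρ₀ ρ₀) (hb : b ∈ Rc ρ₀ ρ₀)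
    (hχ : χ ∈ Rz χ₀ ρ₀) : 1 / 8 ≤ (dl a b χ).re ∧ (dl a b χ).re ≤ 3 / 8 := by
  have h1 := h.dclose a ha b hb χ hχ
  have h2 := (Complex.abs_re_le_norm (dl a b χ - 1 / 4)).trans h1
  have h3 : (dl a b χ - 1 / 4).re = (dl a b χ).re - 1 / 4 := by
    simp
  rw [h3, abs_le] at h2
  constructor <;> linarith [h2.1, h2.2]

lemma good1 (h : SDZ χ₀ ρ₀ c C s dl) : Good (2 * π * dl 0 0 χ₀) 0 := by
  have hb := dl_ne h (zero_mem_Rc h.hρ.1) (zero_mem_Rc h.hρ.1) (zero_mem_Rz h.hρ.1)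
  have hc : Complex.cos (2 * π * dl 0 0 χ₀ / 2) ≠ 0 := by
    intro h0
    rw [Complex.cos_eq_zero_iff] at h0
    obtain ⟨k, hk⟩ := h0
    have h1 := congrArg Complex.re hk
    have e1 : (2 * π * dl 0 0 χ₀ / 2).re = π * (dl 0 0 χ₀).re := by
      rw [show 2 * π * dl 0 0 χ₀ / 2 = (π : ℂ) * dl 0 0 χ₀ by ring]
      simp
    have e2 : ((2 * (k : ℂ) + 1) * π / 2).re = (2 * k + 1) * π / 2 := by
      rw [show (2 * (k : ℂ) + 1) * π / 2 = (((2 * k + 1) * π / 2 : ℝ) : ℂ) by push_cast; ring]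
      simp
    rw [e1, e2] at h1
    have hpi := Real.pi_pos
    have h2 : (dl 0 0 χ₀).re = (2 * k + 1) / 2 := by
      field_simp at h1
      linarith
    rw [h2] at hb
    have h3 : (0:ℝ) < 2 * k + 1 := by linarith [hb.1]
    have h4 : (2 * k + 1 : ℝ) < 1 := by linarith [hb.2]
    have h5 : (0:ℤ) < 2 * k + 1 := by exact_mod_cast h3
    have h6 : (2 * k + 1 : ℤ) < 1 := by exact_mod_cast h4
    omega
  refine ⟨by rwa [add_zero], ?_⟩
  rw [sub_zero, add_zero, div_self hc]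
  simp

lemma good3 (h : SDZ χ₀ ρ₀ c C s dl) : Good (π - 2 * π * dl 0 0 χ₀) χ₀ := by
  have hρ := h.hρ.1
  have z0 := zero_mem_Rc hρ
  have m0 := zero_mem_Rz (χ₀ := χ₀) hρ
  have hnh := (isOpen_Rz (χ₀ := χ₀) (ρ₀ := ρ₀)).mem_nhds m0
  -- continuity of `dl 0 0`
  have hd : ContinuousAt (fun χ => dl 0 0 χ) χ₀ := by
    have h1 : DifferentiableOn ℂ (fun χ : ℂ => dl 0 0 χ) (Rz χ₀ ρ₀) := by
      have h2 : DifferentiableOn ℂ (fun χ : ℂ => ((0 : ℂ), (0 : ℂ), χ)) (Rz χ₀ ρ₀) := by fun_prop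
      exact h.dan.comp h2 fun χ hχ => ⟨z0, z0, hχ⟩
    exact (h1.differentiableAt hnh).continuousAt
  -- the derivative
  have hs : DifferentiableOn ℂ (fun z => s 0 0 z) (Rz χ₀ ρ₀) := fun χ hχ =>
    (h.sderc 0 z0 0 z0 χ hχ).differentiableAt.differentiableWithinAt
  have hs2 : HasDerivAt (deriv fun z => s 0 0 z) (deriv (deriv fun z => s 0 0 z) χ₀) χ₀ :=
    ((hs.deriv isOpen_Rz).differentiableAt hnh).hasDerivAt
  have hc := (h.conc 0 z0 0 z0 χ₀ m0).2
  have hc0 := h.hc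
  have hne : deriv (deriv fun z => s 0 0 z) χ₀ ≠ 0 := by
    intro h0
    rw [h0] at hc
    simp at hc
    linarith
  have hpi : (π : ℂ) ≠ 0 := by exact_mod_cast Real.pi_ne_zero
  have he : (fun χ => Complex.log (Complex.cos ((π - 2 * π * dl 0 0 χ - χ) / 2) /
      Complex.cos ((π - 2 * π * dl 0 0 χ + χ) / 2))) =ᶠ[𝓝 χ₀]
      fun χ => -(2 * π) * deriv (fun z => s 0 0 z) χ := by
    filter_upwards [hnh] with χ hχ
    rw [(h.sderc 0 z0 0 z0 χ hχ).deriv]
    unfold Lg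
    field_simp
  have hg : HasDerivAt (fun χ => Complex.log (Complex.cos ((π - 2 * π * dl 0 0 χ - χ) / 2) /
      Complex.cos ((π - 2 * π * dl 0 0 χ + χ) / 2)))
      (-(2 * π) * deriv (deriv fun z => s 0 0 z) χ₀) χ₀ :=
    (hs2.const_mul _).congr_of_eventuallyEq he
  refine good_of_deriv (A := fun χ => Complex.cos ((π - 2 * π * dl 0 0 χ - χ) / 2))
    (B := fun χ => Complex.cos ((π - 2 * π * dl 0 0 χ + χ) / 2)) ?_ ?_ ?_ hg ?_
  · exact Complex.continuous_cos.continuousAt.comp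
      (((continuousAt_const.sub (continuousAt_const.mul hd)).sub continuousAt_id).div_const 2)
  · exact Complex.continuous_cos.continuousAt.comp
      (((continuousAt_const.sub (continuousAt_const.mul hd)).add continuousAt_id).div_const 2)
  · rintro ⟨hA, hB⟩
    rw [Complex.cos_eq_zero_iff] at hA hB
    obtain ⟨k, hk⟩ := hA
    obtain ⟨l, hl⟩ := hB
    have hb := dl_ne h z0 z0 m0
    have h1 : (dl 0 0 χ₀) = -((k + l : ℤ) : ℂ) / 2 := by
      have h2 : (π : ℂ) * (2 * dl 0 0 χ₀) = π * (-((k + l : ℤ) : ℂ)) := by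
        push_cast
        linear_combination -hk - hl
      have h3 := mul_left_cancel₀ hpi h2
      linear_combination h3 / 2
    have h4 : (dl 0 0 χ₀).re = -((k + l : ℤ) : ℝ) / 2 := by
      rw [h1, show -((k + l : ℤ) : ℂ) / 2 = ((-((k + l : ℤ) : ℝ) / 2 : ℝ) : ℂ) by push_cast; ring]
      simp
    rw [h4] at hb
    have h5 : (((k + l : ℤ)) : ℝ) < 0 := by linarith [hb.1]
    have h6 : -1 < (((k + l : ℤ)) : ℝ) := by linarith [hb.2]
    have h7 : (k + l : ℤ) < 0 := by exact_mod_cast h5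
    have h8 : -1 < (k + l : ℤ) := by exact_mod_cast h6
    omega
  · exact mul_ne_zero (neg_ne_zero.2 (mul_ne_zero two_ne_zero hpi)) hne

theorem potz : Pool.Agent.Y472.S_POTZ := by
  intro χ₀ ρ₀ c C s dl hre h
  have hL := toLoc h
  have hbet := Pool.Agent.Y481.bet_pos
  have hρ := h.hρ.1
  have h0 : ((0 : ℂ), (0 : ℂ), (0 : ℂ)) ∈ (Rc ρ₀ ρ₀ ×ˢ Rc ρ₀ ρ₀ ×ˢ Rc ρ₀ ρ₀ : Set (ℂ × ℂ × ℂ)) :=
    ⟨zero_mem_Rc hρ, zero_mem_Rc hρ, zero_mem_Rc hρ⟩
  have hnh := (isOpen_box ρ₀).mem_nhds h0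
  have cs : ContinuousAt (fun p : ℂ × ℂ × ℂ => s p.1 p.2.1 (p.2.2 + χ₀)) (0, 0, 0) :=
    ((shift_diff h.san).differentiableAt hnh).continuousAt
  have cd : ContinuousAt (fun p : ℂ × ℂ × ℂ => dl p.1 p.2.1 (p.2.2 + χ₀)) (0, 0, 0) :=
    ((shift_diff h.dan).differentiableAt hnh).continuousAt
  -- the three conditions near the origin
  have n1 : ∀ᶠ p : ℂ × ℂ × ℂ in 𝓝 (0, 0, 0),
      bet / 2 < (s p.1 p.2.1 (p.2.2 + χ₀)).re := by
    apply (Complex.continuous_re.continuousAt.comp cs).eventually (lt_mem_nhds _)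
    simp only [Function.comp]
    rw [zero_add, h.zero χ₀ (zero_mem_Rz hρ)]
    linarith
  have n2 : ∀ᶠ p : ℂ × ℂ × ℂ in 𝓝 (0, 0, 0),
      Good (2 * π * dl p.1 p.2.1 (p.2.2 + χ₀)) p.1 := by
    apply good_ev (u := fun p : ℂ × ℂ × ℂ => 2 * π * dl p.1 p.2.1 (p.2.2 + χ₀))
      (z := fun p : ℂ × ℂ × ℂ => p.1) (continuousAt_const.mul cd) continuousAt_fst
    simp only
    rw [zero_add]
    exact good1 h
  have n3 : ∀ᶠ p : ℂ × ℂ × ℂ in 𝓝 (0, 0, 0),
      Good (π - 2 * π * dl p.1 p.2.1 (p.2.2 + χ₀)) (p.2.2 + χ₀) := by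
    apply good_ev (u := fun p : ℂ × ℂ × ℂ => π - 2 * π * dl p.1 p.2.1 (p.2.2 + χ₀))
      (z := fun p : ℂ × ℂ × ℂ => p.2.2 + χ₀)
      (continuousAt_const.sub (continuousAt_const.mul cd)) (by fun_prop)
    simp only
    rw [zero_add]
    exact good3 h
  obtain ⟨r, hr, hball⟩ := Metric.eventually_nhds_iff_ball.1 (n1.and (n2.and n3))
  set R : ℝ := min (ρ₀ / 4) (r / 2) with hR
  have R0 : 0 < R := lt_min (by positivity) (by positivity)
  have R1 : R ≤ ρ₀ / 4 := min_le_left _ _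
  have R2 : R ≤ r / 2 := min_le_right _ _
  have key : ∀ a ∈ Rc R R, ∀ b ∈ Rc R R, ∀ χ ∈ Rc R R,
      bet / 2 < (s a b (χ + χ₀)).re ∧
      Good (2 * π * dl a b (χ + χ₀)) a ∧
      Good (π - 2 * π * dl a b (χ + χ₀)) (χ + χ₀) := by
    intro a ha b hb χ hχ
    have na := Rc_norm ha
    have nb := Rc_norm hb
    have nc := Rc_norm hχ
    have := hball (a, b, χ) (by
      rw [mem_ball, dist_eq_norm]
      show ‖((a, b, χ) : ℂ × ℂ × ℂ) - ((0 : ℂ), (0 : ℂ), (0 : ℂ))‖ < r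
      rw [Prod.mk_sub_mk, Prod.mk_sub_mk, sub_zero, sub_zero, sub_zero, Prod.norm_mk, Prod.norm_mk]
      exact max_lt (by linarith) (max_lt (by linarith) (by linarith)))
    exact this
  have hmono : (Rc R R ×ˢ Rc R R ×ˢ Rc R R : Set (ℂ × ℂ × ℂ)) ⊆
      (Rc ρ₀ ρ₀ ×ˢ Rc ρ₀ ρ₀ ×ˢ Rc ρ₀ ρ₀) := fun p hp =>
    ⟨Rc_mono (by linarith) hp.1, Rc_mono (by linarith) hp.2.1, Rc_mono (by linarith) hp.2.2⟩
  have hdl := (shift_diff h.dan).mono hmono
  refine ⟨R, c, R0, by linarith, h.hc, fun n hn => ?_⟩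
  have hn0 : (0:ℝ) < n := by exact_mod_cast (by omega : 0 < n)
  have hC := h.hC
  refine ⟨n * C + n * C / (ρ₀ / 4), by positivity, potEp hL R0 R1 (half_pos hbet) ?_ ?_ ?_ hn⟩
  · unfold Q1
    apply DifferentiableOn.const_mul
    exact Lg_diff (hdl.const_mul _) differentiableOn_fst fun p hp =>
      (key _ hp.1 _ hp.2.1 _ hp.2.2).2.1
  · unfold Q3
    apply DifferentiableOn.const_mul
    exact Lg_diff ((hdl.const_mul _).const_sub _) (by fun_prop) fun p hp =>
      (key _ hp.1 _ hp.2.1 _ hp.2.2).2.2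
  · intro a ha b hb χ hχ
    exact (key a ha b hb χ hχ).1.le

end ker

end Pool.Agent.Y240.CG
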