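import Pool.Agent.Y329.CG.Stm

/-!
# CG-MD: measure distortion, measurability of the cocycle
-/

set_option autoImplicit false

open Set Filter Topology MeasureTheory
open Pool.Agent.Y329.CG

namespace Pool.Agent.Y240.CG

theorem cont (s : Fin 2 → Equiv.Perm ℝ) (hs : Pair0 s) (W : F2) : Continuous (rho s W) := by
  induction W using FreeGroup.induction_on with
  | C1 => simp only [map_one, Equiv.Perm.coe_one]; exact continuous_id
  | of i => rw [rho_of]; exact (hs.smooth i).continuous
  | inv_of i _ =>
    have e2 : rho s (FreeGroup.of i)⁻¹ = (s i).symm := by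
      rw [map_inv]; simp [Equiv.Perm.inv_def]
    rw [e2]
    exact (hs.smooth_symm i).continuous
  | mul a b ha hb =>
    rw [map_mul, Equiv.Perm.coe_mul]
    exact ha.comp hb

theorem meas_inv (s : Fin 2 → Equiv.Perm ℝ) (hs : Pair0 s) (W : F2)
    (h : ∀ v, MeasurableSet {x | coc s Dp W x = v}) (v : F2) :
    MeasurableSet {x | coc s Dp W⁻¹ x = v} := by
  have : {x | coc s Dp W⁻¹ x = v} = rho s W⁻¹ ⁻¹' {y | coc s Dp W y = v⁻¹} := by
    ext x
    simp only [mem_ofPred_eq, mem_preimage, coc_inv]
    exact inv_eq_iff_eq_inv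
  rw [this]
  exact (cont s hs W⁻¹).measurable (h v⁻¹)

theorem meas (s : Fin 2 → Equiv.Perm ℝ) (hs : Pair0 s) (W : F2) :
    ∀ v, MeasurableSet {x | coc s Dp W x = v} := by
  have hof : ∀ i v, MeasurableSet {x | coc s Dp (FreeGroup.of i) x = v} := by
    intro i v
    have : {x | coc s Dp (FreeGroup.of i) x = v} =
        (Dp i ∩ {_x : ℝ | FreeGroup.of i = v}) ∪ ((Dp i)ᶜ ∩ {_x : ℝ | (1 : F2) = v}) := by
      ext x
      simp only [mem_ofPred_eq, mem_union, mem_inter_iff, mem_compl_iff, coc_of]
      by_cases hx : x ∈ Dp i <;> simp [hx]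
    rw [this]
    have hD : MeasurableSet (Dp i) := measurableSet_Ico
    exact (hD.inter (MeasurableSet.const _)).union (hD.compl.inter (MeasurableSet.const _))
  induction W using FreeGroup.induction_on with
  | C1 => intro v; simp only [coc_one]; exact MeasurableSet.const _
  | of i => exact hof i
  | inv_of i _ => exact meas_inv s hs _ (hof i)
  | mul a b ha hb =>
    intro v
    have hc : Countable F2 := by
      have : Function.Surjective (fun L : List (Fin 2 × Bool) => (FreeGroup.mk L : F2)) :=
        fun w => ⟨w.toWord, FreeGroup.mk_toWord⟩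
      exact this.countable
    have : {x | coc s Dp (a * b) x = v} =
        ⋃ u : F2, (rho s b ⁻¹' {y | coc s Dp a y = v * u⁻¹}) ∩ {x | coc s Dp b x = u} := by
      ext x
      simp only [mem_ofPred_eq, mem_iUnion, mem_inter_iff, mem_preimage, coc_mul]
      constructor
      · intro h
        exact ⟨coc s Dp b x, by rw [← h]; group, rfl⟩
      · rintro ⟨u, h1, h2⟩
        rw [h1, h2]
        group
    rw [this]
    exact MeasurableSet.iUnion fun u => ((cont s hs b).measurable (ha _)).inter (hb u)

theorem done : S_MD := by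
  intro s hs
  have hle : ∀ i x, x ≤ s i x := by
    intro i x
    by_cases hx : x ∈ Ioo (lo i) (hi i)
    · exact (hs.gt i x hx).le
    · rw [hs.out i x hx]
  refine ⟨meas s hs, ?_, ?_, ?_⟩
  · intro i B hB
    rw [Equiv.image_eq_preimage_symm]
    exact (hs.smooth_symm i).continuous.measurable hB
  · intro i B hB hB1
    have hd : Differentiable ℝ (s i) := (hs.smooth i).differentiable (by norm_num)
    have h1 := lintegral_image_eq_lintegral_abs_deriv_mul hB
      (fun x _ => (hd x).hasDerivAt.hasDerivWithinAt) (s i).injective.injOn (fun _ => 1)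
    simp only [lintegral_const, one_mul, Measure.restrict_apply MeasurableSet.univ, univ_inter,
      mul_one] at h1
    have hvB : volume B ≤ 1 := by
      calc volume B ≤ volume (Ico (1 : ℝ) 2) := measure_mono hB1
        _ = 1 := by rw [Real.volume_Ico]; norm_num
    have hvB' : volume B ≠ ⊤ := ne_top_of_le_ne_top ENNReal.one_ne_top hvB
    have hub : volume (s i '' B) ≤ ENNReal.ofReal (101 / 100) * volume B := by
      rw [h1]
      calc ∫⁻ x in B, ENNReal.ofReal |deriv (s i) x| ≤ ∫⁻ _x in B, ENNReal.ofReal (101 / 100) := by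
            apply lintegral_mono
            intro x
            apply ENNReal.ofReal_le_ofReal
            have := abs_le.mp (hs.der i x)
            rw [abs_le]
            constructor <;> linarith [this.1, this.2]
        _ = ENNReal.ofReal (101 / 100) * volume B := by
            simp
    have hlb : ENNReal.ofReal (99 / 100) * volume B ≤ volume (s i '' B) := by
      rw [h1]
      calc ENNReal.ofReal (99 / 100) * volume B = ∫⁻ _x in B, ENNReal.ofReal (99 / 100) := by
            simp
        _ ≤ ∫⁻ x in B, ENNReal.ofReal |deriv (s i) x| := by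
            apply lintegral_mono
            intro x
            apply ENNReal.ofReal_le_ofReal
            have := abs_le.mp (hs.der i x)
            exact le_trans (by linarith [this.1]) (le_abs_self _)
    have hvI' : volume (s i '' B) ≠ ⊤ :=
      ne_top_of_le_ne_top (ENNReal.mul_ne_top ENNReal.ofReal_ne_top hvB') hub
    have hub' : volume.real (s i '' B) ≤ 101 / 100 * volume.real B := by
      have := ENNReal.toReal_mono (ENNReal.mul_ne_top ENNReal.ofReal_ne_top hvB') hub
      rwa [ENNReal.toReal_mul, ENNReal.toReal_ofReal (by norm_num)] at this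
    have hlb' : 99 / 100 * volume.real B ≤ volume.real (s i '' B) := by
      have := ENNReal.toReal_mono hvI' hlb
      rwa [ENNReal.toReal_mul, ENNReal.toReal_ofReal (by norm_num)] at this
    have hB1' : volume.real B ≤ 1 := by
      have := ENNReal.toReal_mono ENNReal.one_ne_top hvB
      rwa [ENNReal.toReal_one] at this
    have hB0 : 0 ≤ volume.real B := measureReal_nonneg
    rw [abs_le]
    constructor <;> linarith
  · intro i
    have h0 : s i '' Ico (1 : ℝ) 2 = Ico (s i 1) (s i 2) := by
      ext y
      constructor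
      · rintro ⟨x, hx, rfl⟩
        exact ⟨(hs.mono i).monotone hx.1, (hs.mono i) hx.2⟩
      · rintro ⟨h1, h2⟩
        refine ⟨(s i).symm y, ⟨?_, ?_⟩, by simp⟩
        · rw [← (hs.mono i).le_iff_le]; simpa using h1
        · rw [← (hs.mono i).lt_iff_lt]; simpa using h2
    rw [h0]
    have hsub : symmDiff (Ico (s i 1) (s i 2)) (Ico (1 : ℝ) 2) ⊆
        Icc 1 (1 + 1 / 100) ∪ Icc 2 (2 + 1 / 100) := by
      intro x hx
      have h1 := hle i 1
      have h2 := hle i 2
      have h3 := hs.disp i 1
      have h4 := hs.disp i 2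
      rcases hx with ⟨hx, hx'⟩ | ⟨hx, hx'⟩
      · right
        have : ¬ x < 2 := fun h => hx' ⟨h1.trans hx.1, h⟩
        exact ⟨not_lt.mp this, hx.2.le.trans h4⟩
      · left
        have : ¬ s i 1 ≤ x := fun h => hx' ⟨h, lt_of_lt_of_le hx.2 h2⟩
        exact ⟨hx.1, (not_le.mp this).le.trans h3⟩
    calc volume.real (symmDiff (Ico (s i 1) (s i 2)) (Ico (1 : ℝ) 2))
        ≤ volume.real (Icc (1 : ℝ) (1 + 1 / 100) ∪ Icc 2 (2 + 1 / 100)) := by
          refine measureReal_mono hsub ?_
          exact (measure_union_lt_top (by rw [Real.volume_Icc]; exact ENNReal.ofReal_lt_top)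
            (by rw [Real.volume_Icc]; exact ENNReal.ofReal_lt_top)).ne
      _ ≤ volume.real (Icc (1 : ℝ) (1 + 1 / 100)) + volume.real (Icc (2 : ℝ) (2 + 1 / 100)) :=
          measureReal_union_le _ _
      _ ≤ 1 / 50 := by
          rw [Measure.real, Measure.real, Real.volume_Icc, Real.volume_Icc,
            ENNReal.toReal_ofReal (by norm_num), ENNReal.toReal_ofReal (by norm_num)]
          norm_num

end Pool.Agent.Y240.CG
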